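import Pool.Agent.Helper87.HQ.St

/-!
# Project HQ, modules H1 and H2: clearing denominators
-/

set_option autoImplicit false

namespace Pool.Agent.Helper22.HQ

open Pool.Agent.Helper87.HQ
open MvPolynomial

private lemma ev2_C {n : ℕ} {K : Type} [Field K] [Algebra ℝ K] (y : Fin n → K) (w : K)
    (r : MvPolynomial (Fin n) ℝ) : ev2 y w (Polynomial.C r) = aeval y r := by
  unfold ev2
  rw [Polynomial.eval₂_C]
  rfl

private lemma ev2_X {n : ℕ} {K : Type} [Field K] [Algebra ℝ K] (y : Fin n → K) (w : K) :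
    ev2 y w Polynomial.X = w := by
  unfold ev2
  rw [Polynomial.eval₂_X]

private lemma ev2_add {n : ℕ} {K : Type} [Field K] [Algebra ℝ K] (y : Fin n → K) (w : K)
    (g g' : Polynomial (MvPolynomial (Fin n) ℝ)) :
    ev2 y w (g + g') = ev2 y w g + ev2 y w g' := by
  unfold ev2
  rw [Polynomial.eval₂_add]

private lemma ev2_mul {n : ℕ} {K : Type} [Field K] [Algebra ℝ K] (y : Fin n → K) (w : K)
    (g g' : Polynomial (MvPolynomial (Fin n) ℝ)) :
    ev2 y w (g * g') = ev2 y w g * ev2 y w g' := by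
  unfold ev2
  rw [Polynomial.eval₂_mul]

theorem hH1 : StH1 := by
  intro A _ _ n y b c g
  induction g using Polynomial.induction_on with
  | C r =>
    refine ⟨0, aeval y r, ?_⟩
    intro K _ _ φ hc
    rw [ev2_C, pow_zero, one_mul]
    exact MvPolynomial.comp_aeval_apply y φ r
  | add g g' h h' =>
    obtain ⟨N, a, ha⟩ := h
    obtain ⟨N', a', ha'⟩ := h'
    refine ⟨N + N', a * c ^ N' + a' * c ^ N, ?_⟩
    intro K _ _ φ hc
    rw [map_add, map_mul, map_mul, map_pow, map_pow, ha K φ hc, ha' K φ hc, ev2_add]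
    ring
  | monomial k r h =>
    obtain ⟨N, a, ha⟩ := h
    refine ⟨N + 1, a * b, ?_⟩
    intro K _ _ φ hc
    have e1 : Polynomial.C r * Polynomial.X ^ (k + 1) =
        (Polynomial.C r * Polynomial.X ^ k) * Polynomial.X := by
      rw [pow_succ, mul_assoc]
    rw [map_mul, ha K φ hc, e1, ev2_mul _ _ (Polynomial.C r * Polynomial.X ^ k), ev2_X]
    field_simp
    ring

theorem hH2 : StH2 := by
  intro σ n Δ h p
  induction p using MvPolynomial.induction_on with
  | C r =>
    refine ⟨0, Polynomial.C (MvPolynomial.C r), ?_⟩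
    intro K _ _ u w x _
    rw [ev2_C, pow_zero, one_mul, aeval_C, aeval_C]
  | add p p' hp hp' =>
    obtain ⟨N, q, hq⟩ := hp
    obtain ⟨N', q', hq'⟩ := hp'
    refine ⟨N + N', q * Polynomial.C (Δ ^ N') + q' * Polynomial.C (Δ ^ N), ?_⟩
    intro K _ _ u w x hx
    rw [ev2_add, ev2_mul, ev2_mul, ev2_C, ev2_C, hq K u w x hx, hq' K u w x hx, map_add, map_pow,
      map_pow]
    ring
  | mul_X p i hp =>
    obtain ⟨N, q, hq⟩ := hp
    refine ⟨N + 1, q * h i, ?_⟩
    intro K _ _ u w x hx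
    rw [ev2_mul, hq K u w x hx, hx i, map_mul, aeval_X]
    ring

end Pool.Agent.Helper22.HQ
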